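import Mathlib
import Pool.Agent.Work.MP_db9399_bp_helper22.ClassRule

/-!
# The finish lemma with types L, F, Z (helper6)

`S` is a finite bipartite multigraph of maximum degree at most `r - 1`, `Q` a palette of `r`
colours, own colours are prescribed on `PX` and `PY` (arbitrarily). If the prescribed vertices of
degree `r - 1` of each side are matched into the not prescribed vertices of the other side, then `S`
has a proper edge colouring from `Q` avoiding the own colours.
-/

set_option autoImplicit false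

namespace Pool.Agent.Work.MP_db9399_da_helper6

open Finset

variable {E X Y C : Type*} [DecidableEq E] [DecidableEq X] [DecidableEq Y] [DecidableEq C]

/-- Mendelsohn-Dulmage for multigraphs. -/
theorem mend (x : E → X) (y : E → Y) (M1 M2 : Finset E)
    (h1x : ∀ e ∈ M1, ∀ f ∈ M1, x e = x f → e = f) (h1y : ∀ e ∈ M1, ∀ f ∈ M1, y e = y f → e = f)
    (h2x : ∀ e ∈ M2, ∀ f ∈ M2, x e = x f → e = f)
    (h2y : ∀ e ∈ M2, ∀ f ∈ M2, y e = y f → e = f) :
    ∃ M ⊆ M1 ∪ M2, (∀ e ∈ M, ∀ f ∈ M, x e = x f → e = f) ∧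
      (∀ e ∈ M, ∀ f ∈ M, y e = y f → e = f) ∧
      (∀ e ∈ M1, ∃ f ∈ M, x f = x e) ∧ (∀ e ∈ M2, ∃ f ∈ M, y f = y e) := by
  obtain ⟨M, hM, hMx, hMy, hst⟩ := _root_.MP_db9399_co.exists_stable x y
    (fun e => if e ∈ M2 then 0 else 1) (fun e => if e ∈ M1 then 0 else 1) (M1 ∪ M2)
    (by
      intro e he f hf hxx haa
      simp only [mem_union] at he hf
      by_cases h1 : e ∈ M2 <;> by_cases h2 : f ∈ M2 <;> simp only [h1, h2, if_true, if_false] at haa
      · exact h2x e h1 f h2 hxx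
      · omega
      · omega
      · exact h1x e (he.resolve_right h1) f (hf.resolve_right h2) hxx)
    (by
      intro e he f hf hxx haa
      simp only [mem_union] at he hf
      by_cases h1 : e ∈ M1 <;> by_cases h2 : f ∈ M1 <;> simp only [h1, h2, if_true, if_false] at haa
      · exact h1y e h1 f h2 hxx
      · omega
      · omega
      · exact h2y e (he.resolve_left h1) f (hf.resolve_left h2) hxx)
  refine ⟨M, hM, hMx, hMy, ?_, ?_⟩
  · intro e he
    by_cases heM : e ∈ M
    · exact ⟨e, heM, rfl⟩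
    · obtain ⟨f, hf, hd⟩ := hst e (mem_union_left _ he) heM
      rcases hd with hd | hd
      · exact ⟨f, hf, hd.1⟩
      · simp [he] at hd
  · intro e he
    by_cases heM : e ∈ M
    · exact ⟨e, heM, rfl⟩
    · obtain ⟨f, hf, hd⟩ := hst e (mem_union_right _ he) heM
      rcases hd with hd | hd
      · simp [he] at hd
      · exact ⟨f, hf, hd.1⟩

theorem card_filter_sdiff_lt {Z : Type*} [DecidableEq Z] (z : E → Z) (S M : Finset E) (v : Z)
    (h : ∃ e ∈ M, e ∈ S ∧ z e = v) :
    ((S \ M).filter (fun e => z e = v)).card < (S.filter (fun e => z e = v)).card := by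
  obtain ⟨e, heM, heS, hev⟩ := h
  refine card_lt_card ⟨filter_subset_filter _ sdiff_subset, fun h' => ?_⟩
  have : e ∈ (S \ M).filter (fun e => z e = v) := h' (mem_filter.2 ⟨heS, hev⟩)
  exact (mem_sdiff.1 (mem_filter.1 this).1).2 heM

theorem card_filter_sdiff_le {Z : Type*} [DecidableEq Z] (z : E → Z) (S M : Finset E) (v : Z) :
    ((S \ M).filter (fun e => z e = v)).card ≤ (S.filter (fun e => z e = v)).card :=
  card_le_card (filter_subset_filter _ sdiff_subset)

/-- The finish lemma. -/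
theorem finish [Nonempty C] (x : E → X) (y : E → Y) (S : Finset E) (r : ℕ)
    (hdx : ∀ v, (S.filter (fun e => x e = v)).card + 1 ≤ r)
    (hdy : ∀ v, (S.filter (fun e => y e = v)).card + 1 ≤ r)
    (PX : Finset X) (PY : Finset Y) (cX : X → C) (cY : Y → C) (Q : Finset C) (hQ : r ≤ Q.card)
    (A B : Finset E) (hA : A ⊆ S) (hB : B ⊆ S)
    (hAx : ∀ e ∈ A, ∀ f ∈ A, x e = x f → e = f) (hAy : ∀ e ∈ A, ∀ f ∈ A, y e = y f → e = f)
    (hBx : ∀ e ∈ B, ∀ f ∈ B, x e = x f → e = f) (hBy : ∀ e ∈ B, ∀ f ∈ B, y e = y f → e = f)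
    (hA1 : ∀ v ∈ PX, r ≤ (S.filter (fun e => x e = v)).card + 1 → ∃ e ∈ A, x e = v)
    (hA2 : ∀ e ∈ A, y e ∉ PY)
    (hB1 : ∀ w ∈ PY, r ≤ (S.filter (fun e => y e = w)).card + 1 → ∃ e ∈ B, y e = w)
    (hB2 : ∀ e ∈ B, x e ∉ PX) :
    ∃ col : E → C, (∀ e ∈ S, col e ∈ Q) ∧
      (∀ e ∈ S, x e ∈ PX → col e ≠ cX (x e)) ∧ (∀ e ∈ S, y e ∈ PY → col e ≠ cY (y e)) ∧
      ∀ e ∈ S, ∀ e' ∈ S, e ≠ e' → (x e = x e' ∨ y e = y e') → col e ≠ col e' := by
  classical
  rcases S.eq_empty_or_nonempty with hS | ⟨e0, he0⟩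
  · subst hS
    exact ⟨fun _ => Classical.arbitrary C, by simp, by simp, by simp, by simp⟩
  have hr2 : 2 ≤ r := by
    have h1 := hdx (x e0)
    have h2 : 0 < (S.filter (fun e => x e = x e0)).card :=
      card_pos.2 ⟨e0, mem_filter.2 ⟨he0, rfl⟩⟩
    omega
  obtain ⟨d, rfl⟩ : ∃ d, r = d + 2 := ⟨r - 2, by omega⟩
  -- the first matching
  set S1 : Finset E := S.filter (fun e => x e ∉ PX) with hS1
  have hS1S : S1 ⊆ S := filter_subset _ _
  obtain ⟨N1, hN1S, hN1x, hN1y, hN1c⟩ := _root_.MP_db9399_co.hall_side x y d S1 (fun w =>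
    (card_le_card (filter_subset_filter _ hS1S)).trans (by have := hdy w; omega))
  have hBS1 : B ⊆ S1 := fun e he => mem_filter.2 ⟨hB he, hB2 e he⟩
  obtain ⟨M1, hM1, hM1x, hM1y, hM1c, hM1c'⟩ := mend x y N1 B hN1x hN1y hBx hBy
  have hM1S1 : M1 ⊆ S1 := hM1.trans (union_subset hN1S hBS1)
  have hM1S : M1 ⊆ S := hM1S1.trans hS1S
  have hdegS1 : ∀ v, v ∉ PX → (S1.filter (fun e => x e = v)) = (S.filter (fun e => x e = v)) := by
    intro v hv
    ext e
    simp only [hS1, mem_filter]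
    constructor
    · rintro ⟨⟨h1, _⟩, h3⟩
      exact ⟨h1, h3⟩
    · rintro ⟨h1, h3⟩
      exact ⟨⟨h1, by rw [h3]; exact hv⟩, h3⟩
  -- the second matching
  set S2 : Finset E := (S \ M1).filter (fun e => y e ∉ PY) with hS2
  have hS2S : S2 ⊆ S := (filter_subset _ _).trans sdiff_subset
  obtain ⟨N2, hN2S, hN2y, hN2x, hN2c⟩ := _root_.MP_db9399_co.hall_side y x d S2 (fun v =>
    (card_le_card (filter_subset_filter _ hS2S)).trans (by have := hdx v; omega))
  set A' : Finset E := A.filter (fun e => x e ∈ PX) with hA'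
  have hA'S2 : A' ⊆ S2 := by
    intro e he
    rw [hA', mem_filter] at he
    refine mem_filter.2 ⟨mem_sdiff.2 ⟨hA he.1, fun h => ?_⟩, hA2 e he.1⟩
    exact (mem_filter.1 (hM1S1 h)).2 he.2
  obtain ⟨M2, hM2, hM2x, hM2y, hM2c, hM2c'⟩ := mend x y A' N2
    (fun e he f hf => hAx e (mem_filter.1 he).1 f (mem_filter.1 hf).1)
    (fun e he f hf => hAy e (mem_filter.1 he).1 f (mem_filter.1 hf).1) hN2x hN2y
  have hM2S2 : M2 ⊆ S2 := hM2.trans (union_subset hA'S2 hN2S)
  have hM2S : M2 ⊆ S := hM2S2.trans hS2S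
  have hdisj : ∀ e ∈ M2, e ∉ M1 := fun e he =>
    (mem_sdiff.1 (mem_filter.1 (hM2S2 he)).1).2
  -- degrees of the rest
  have hx3 : ∀ v, (((S \ M1) \ M2).filter (fun e => x e = v)).card ≤ d := by
    intro v
    have h0 := hdx v
    have h1 := card_filter_sdiff_le x S M1 v
    have h2 := card_filter_sdiff_le x (S \ M1) M2 v
    by_cases hfull : d + 1 ≤ (S.filter (fun e => x e = v)).card
    · by_cases hv : v ∈ PX
      · obtain ⟨e, heA, hev⟩ := hA1 v hv (by omega)
        obtain ⟨f, hf, hfe⟩ := hM2c e (mem_filter.2 ⟨heA, by rw [hev]; exact hv⟩)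
        have := card_filter_sdiff_lt x (S \ M1) M2 v
          ⟨f, hf, mem_sdiff.2 ⟨hM2S hf, hdisj f hf⟩, hfe.trans hev⟩
        omega
      · obtain ⟨e, heN, hev⟩ := hN1c v (by rw [hdegS1 v hv]; exact hfull)
        obtain ⟨f, hf, hfe⟩ := hM1c e heN
        have := card_filter_sdiff_lt x S M1 v ⟨f, hf, hM1S hf, hfe.trans hev⟩
        omega
    · omega
  have hy3 : ∀ w, (((S \ M1) \ M2).filter (fun e => y e = w)).card ≤ d := by
    intro w
    have h0 := hdy w
    have h1 := card_filter_sdiff_le y S M1 w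
    have h2 := card_filter_sdiff_le y (S \ M1) M2 w
    by_cases hfull : d + 1 ≤ (S.filter (fun e => y e = w)).card
    · by_cases hw : w ∈ PY
      · obtain ⟨e, heB, hew⟩ := hB1 w hw (by omega)
        obtain ⟨f, hf, hfe⟩ := hM1c' e heB
        have := card_filter_sdiff_lt y S M1 w ⟨f, hf, hM1S hf, hfe.trans hew⟩
        omega
      · by_cases hfull2 : d + 1 ≤ ((S \ M1).filter (fun e => y e = w)).card
        · have h3 : (S2.filter (fun e => y e = w)) = ((S \ M1).filter (fun e => y e = w)) := by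
            ext e
            simp only [hS2, mem_filter]
            constructor
            · rintro ⟨⟨h1, _⟩, h3⟩
              exact ⟨h1, h3⟩
            · rintro ⟨h1, h3⟩
              exact ⟨⟨h1, by rw [h3]; exact hw⟩, h3⟩
          obtain ⟨e, heN, hew⟩ := hN2c w (by rw [h3]; exact hfull2)
          obtain ⟨f, hf, hfe⟩ := hM2c' e heN
          have := card_filter_sdiff_lt y (S \ M1) M2 w
            ⟨f, hf, mem_sdiff.2 ⟨hM2S hf, hdisj f hf⟩, hfe.trans hew⟩
          omega
        · omega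
    · omega
  obtain ⟨k, hk1, hk2⟩ := _root_.MP_db9399_co.konig x y d ((S \ M1) \ M2) hx3 hy3
  have hk1' : ∀ e ∈ S, e ∉ M1 → e ∉ M2 → k e < d := fun e he h1 h2 =>
    hk1 e (mem_sdiff.2 ⟨mem_sdiff.2 ⟨he, h1⟩, h2⟩)
  have key : ∀ e ∈ S, ∀ e' ∈ S, (x e = x e' ∨ y e = y e') →
      (if e ∈ M1 then 0 else if e ∈ M2 then d + 1 else k e + 1) =
        (if e' ∈ M1 then 0 else if e' ∈ M2 then d + 1 else k e' + 1) → e = e' := by
    intro e he e' he' hxy h
    by_cases h1 : e ∈ M1
    · by_cases h1' : e' ∈ M1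
      · rcases hxy with hx | hy
        · exact hM1x e h1 e' h1' hx
        · exact hM1y e h1 e' h1' hy
      · rw [if_pos h1, if_neg h1'] at h
        split_ifs at h <;> omega
    · by_cases h1' : e' ∈ M1
      · rw [if_neg h1, if_pos h1'] at h
        split_ifs at h <;> omega
      · rw [if_neg h1, if_neg h1'] at h
        by_cases h2 : e ∈ M2
        · by_cases h2' : e' ∈ M2
          · rcases hxy with hx | hy
            · exact hM2x e h2 e' h2' hx
            · exact hM2y e h2 e' h2' hy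
          · rw [if_pos h2, if_neg h2'] at h
            have := hk1' e' he' h1' h2'
            omega
        · by_cases h2' : e' ∈ M2
          · rw [if_neg h2, if_pos h2'] at h
            have := hk1' e he h1 h2
            omega
          · rw [if_neg h2, if_neg h2'] at h
            by_contra hne
            exact hk2 e (mem_sdiff.2 ⟨mem_sdiff.2 ⟨he, h1⟩, h2⟩) e'
              (mem_sdiff.2 ⟨mem_sdiff.2 ⟨he', h1'⟩, h2'⟩) hne hxy (by omega)
  refine MP_db9399_bp_helper22.class_rule_own x y S (d + 2)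
    (fun e => if e ∈ M1 then 0 else if e ∈ M2 then d + 1 else k e + 1)
    (fun e he e' he' hx h => key e he e' he' (Or.inl hx) h)
    (fun e he e' he' hy h => key e he e' he' (Or.inr hy) h) ?_ PX PY cX cY Q hQ ?_ ?_
  · intro e he
    by_cases h1 : e ∈ M1
    · simp [h1]
    · by_cases h2 : e ∈ M2
      · simp [h1, h2]
      · have := hk1' e he h1 h2
        simp only [h1, h2, if_false]
        omega
  · intro e he hP
    have h1 : e ∉ M1 := fun h => (mem_filter.1 (hM1S1 h)).2 hP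
    by_cases h2 : e ∈ M2
    · simp [h1, h2]
    · simp [h1, h2]
  · intro e he hP
    have h2 : e ∉ M2 := fun h => (mem_filter.1 (hM2S2 h)).2 hP
    by_cases h1 : e ∈ M1
    · simp [h1]
    · have := hk1' e he h1 h2
      simp only [h1, h2, if_false]
      omega

end Pool.Agent.Work.MP_db9399_da_helper6
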